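import Pool.Agent.Helper1.TE.Goals4

/-!
# Project TE (MP_8b4d68_lc), packet TE-BPK
-/

namespace Pool.Agent.Helper24.TE

open Pool.Agent.Helper1.TE

theorem gBPK : GoalBPK := by
  intro Z g hg k hk
  refine ⟨?_, ?_, ?_, ?_, ?_, hg.one_le, ?_, hg.st_sh, hg.st_un⟩
  · exact fun p hp => hg.hd_V p (lt_of_lt_of_le hp hk)
  · exact fun p hp => hg.sh_V p (lt_of_lt_of_le hp hk)
  · exact fun p hp => hg.un_V p (lt_of_lt_of_le hp hk)
  · exact fun p hp => hg.ok p (lt_of_lt_of_le hp hk)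
  · exact fun p hp a ha => hg.sound p (lt_of_lt_of_le hp hk) a (lt_of_lt_of_le ha hk)
  · exact fun p hp => hg.st_hd p (lt_of_lt_of_le hp hk)

end Pool.Agent.Helper24.TE
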